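import Pool.Agent.helper55.FLD.Spec

/-! Row fld:NZ. -/

namespace Pool.Agent.FLD

open Matrix Topology Filter

/-- The second component of an integral pair. -/
theorem NZ_mem {p : ℕ} [Fact p.Prime] {n F : Type} [Fintype n] [DecidableEq n]
    [NormedField F] [NormedAlgebra ℚ_[p] F]
    {R : Subring (Matrix n n ℚ_[p] × Matrix (Fin 2) (Fin 2) F)}
    (hR : ∀ x, x ∈ R ↔ Integral p x) {z : Matrix n n ℚ_[p] × Matrix (Fin 2) (Fin 2) F}
    (hz : z ∈ R) : ((0, z.2) : Matrix n n ℚ_[p] × Matrix (Fin 2) (Fin 2) F) ∈ R := by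
  rw [hR] at hz ⊢
  refine ⟨fun i j => ?_, fun i j => hz.2 i j⟩
  simp

theorem NZ_dv {p : ℕ} [Fact p.Prime] {n F : Type} [Fintype n] [DecidableEq n]
    [NormedField F] [NormedAlgebra ℚ_[p] F]
    {R : Subring (Matrix n n ℚ_[p] × Matrix (Fin 2) (Fin 2) F)}
    (hR : ∀ x, x ∈ R ↔ Integral p x) {k : ℕ} {z : Matrix n n ℚ_[p] × Matrix (Fin 2) (Fin 2) F}
    (hz : Dv p R k z) :
    Dv p R k ((0, z.2) : Matrix n n ℚ_[p] × Matrix (Fin 2) (Fin 2) F) := by
  obtain ⟨r, hr, h⟩ := hz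
  refine ⟨(0, r.2), NZ_mem hR hr, ?_⟩
  rw [h]
  ext i j <;> simp

theorem NZ (h1 : LG_stmt) (h2 : AD_stmt) (h3 : TL_stmt) (h4 : TP_stmt) : NZ_stmt := by
  intro p _ n F _ _ _ _ _ G _ V ρ R hR hL hc hΦ g hg
  haveI : CharZero F := charZero_of_injective_algebraMap (algebraMap ℚ_[p] F).injective
  obtain ⟨Z, hZR, hZ⟩ := (h1 p (Matrix n n ℚ_[p] × Matrix (Fin 2) (Fin 2) F) R hL).2.1 _ (hΦ g)
  have hT : Z ∈ TT p R (V.prod ρ) :=
    (h4 p (Matrix n n ℚ_[p] × Matrix (Fin 2) (Fin 2) F) R hL hc G (V.prod ρ) hΦ).1 g Z hZR hZ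
  refine ⟨Z, hT, fun h0 => ?_⟩
  obtain ⟨t1, t2, t3, t4, t5, t6, t7, t8⟩ := h3 F
  have hcen := t7 Z.2 0 (by
    rw [h0]
    have := t2 0 (by simp)
    rw [this])
  have hinv : ρ g * ρ g⁻¹ = 1 := by rw [← map_mul, mul_inv_cancel, map_one]
  have hinv' : ρ g⁻¹ * ρ g = 1 := by rw [← map_mul, inv_mul_cancel, map_one]
  have key := h2 p (Matrix n n ℚ_[p] × Matrix (Fin 2) (Fin 2) F) R hL.sep hL.abs
    (1, ρ g) (1, ρ g⁻¹) 1 1 (0, Z.2) 0
    (by rw [Prod.mk_mul_mk, hinv, one_mul]; rfl)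
    (by rw [Prod.mk_mul_mk, hinv', one_mul]; rfl)
    (one_mul 1) (one_mul 1)
    (by
      have := NZ_dv hR (hΦ g)
      have e : ((1, ρ g) : Matrix n n ℚ_[p] × Matrix (Fin 2) (Fin 2) F) - 1 =
          (0, ((V.prod ρ) g - 1).2) := by
        ext i j <;> simp
      rw [e]
      exact this)
    (by
      have := NZ_dv hR (hΦ g⁻¹)
      have e : ((1, ρ g⁻¹) : Matrix n n ℚ_[p] × Matrix (Fin 2) (Fin 2) F) - 1 =
          (0, ((V.prod ρ) g⁻¹ - 1).2) := by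
        ext i j <;> simp
      rw [e]
      exact this)
    (by rw [sub_self]; exact Dv.zero 2)
    (by rw [sub_self]; exact Dv.zero 2)
    (NZ_mem hR hZR) R.zero_mem
    (by
      intro i
      have := NZ_dv hR (hZ i)
      have e : ((1, ρ g) : Matrix n n ℚ_[p] × Matrix (Fin 2) (Fin 2) F) ^ p ^ i - 1 -
          ((p : ℚ_[p]) ^ i) • ((0, Z.2) : Matrix n n ℚ_[p] × Matrix (Fin 2) (Fin 2) F) =
          (0, ((V.prod ρ) g ^ p ^ i - 1 - ((p : ℚ_[p]) ^ i) • Z).2) := by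
        apply Prod.ext
        · simp
        · simp
      rw [e]
      exact this)
    (by
      intro i
      rw [one_pow, sub_self, smul_zero, sub_self]
      exact Dv.zero _)
    (by
      intro b
      rw [sub_zero]
      apply Prod.ext
      · simp
      · have := hcen b.2
        rw [sub_zero] at this
        exact this)
  obtain ⟨c, hcc⟩ := t8 (ρ g) (ρ g⁻¹) 1 1 hinv (one_mul 1) (one_mul 1) (by
    intro b
    have := congrArg Prod.snd (key (0, b))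
    exact this)
  exact hg c hcc

end Pool.Agent.FLD
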